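import Mathlib
import Pool.Agent.Y838.SP.D

set_option autoImplicit false

/-!
Lipschitz free `p`-spaces over arbitrary metric spaces have the strong Schur `p`-property, with an
absolute constant, for `0 < p < 1`.
-/

namespace Pool.Agent.Results.MP_80c44a_an.StrongSchur

open Pool.Agent.H262.FreeP

/-- The strong Schur `p`-property with constant `κ`: every bounded sequence whose terms are pairwise
at distance at least `η > 0` has a subsequence satisfying the lower `ℓ_p`-estimate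
`κ η^p ∑ |a_k|^p ≤ N (∑ a_k x_k)^p`. The constant `κ` depends neither on the bound of the sequence
nor on `η`. -/
def StrongSchurP (𝕜 : Type) [RCLike 𝕜] (p : ℝ) (F : Type) [AddCommGroup F] [Module 𝕜 F]
    (N : F → ℝ) (κ : ℝ) : Prop :=
  ∀ (x : ℕ → F) (B η : ℝ), 0 < η → (∀ n, N (x n) ≤ B) → (∀ n m, n ≠ m → η ≤ N (x n - x m)) →
    ∃ φ : ℕ → ℕ, StrictMono φ ∧ ∀ (G : Finset ℕ) (a : ℕ → 𝕜),
      κ * η ^ p * ∑ k ∈ G, ‖a k‖ ^ p ≤ N (∑ k ∈ G, a k • x (φ k)) ^ p

/-- Lipschitz free `p`-spaces in the sense of `IsFreePSpace` exist, so that `result` below is not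
vacuous. -/
theorem exists_space (𝕜 : Type) [RCLike 𝕜] (p : ℝ) (hp : 0 < p) (hp1 : p < 1)
    (M : Type) [MetricSpace M] (o : M) :
    ∃ (F : Type) (_ : AddCommGroup F) (_ : Module 𝕜 F) (N : F → ℝ) (δ : M → F),
      IsFreePSpace 𝕜 p M o F N δ :=
  Pool.Agent.H262.FP.exists_free hp hp1.le o

/-- Let `0 < p < 1` and let `M` be any metric space. The Lipschitz free `p`-space `F_p(M)`, over the
real or the complex scalars, has the strong Schur `p`-property with the absolute constant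
`κ = 10⁻⁶`. -/
theorem result (𝕜 : Type) [RCLike 𝕜] (p : ℝ) (hp : 0 < p) (hp1 : p < 1)
    (M : Type) [MetricSpace M] (o : M) (F : Type) [AddCommGroup F] [Module 𝕜 F]
    (N : F → ℝ) (δ : M → F) (hF : IsFreePSpace 𝕜 p M o F N δ) :
    StrongSchurP 𝕜 p F N (1 / 10 ^ 6) := by
  intro x B η hη hB hsep
  obtain ⟨φ, hφ, h⟩ := Pool.Agent.Y838.SP.strongSchur hp hp1 hF hB hη
    (fun n m hnm => hsep n m hnm.ne)
  refine ⟨φ, hφ, fun G a => ?_⟩
  have h1 := h G a
  have h2 : 1 / 10 ^ 6 * η ^ p = η ^ p / 10 ^ 6 := by ring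
  rw [h2]
  exact h1

end Pool.Agent.Results.MP_80c44a_an.StrongSchur
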